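import Pool.Agent.Q94.FTM

/-!
# A most contracted point in the interior of the Voronoi cell (MP_507a1e_gt)

Q1 is answered in the negative: there are a lattice `L` of dimension `1301`, an optimal weight `z`
for `L` and a most contracted point of `φ_z` in the interior of the Voronoi cell of `L`; it is not
on the boundary.

Definitions used (all in `Pool/Agent/Q94/FTA.lean`), for a subgroup `L` of `E n = ℝⁿ`:

* `IsLattice L`: `L` is the integer span of a basis of `ℝⁿ`;
* `dual L`: the dual lattice; `Vor L`: the Voronoi cell; `ip`: the Euclidean inner product;
* `torDist L x y`: the distance of the flat torus, the infimum of `‖x - y - v‖` over `v` in `L`;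
* `TorusInj L φ`: `φ x = φ y` exactly when `x - y` is in `L`, that is, `φ` is the lift to `ℝⁿ` of
  an injective map of `ℝⁿ/L`;
* `expansion`, `contraction`: the two suprema over pairs of distinct points of the torus, in
  `[0,∞]`; `distortion` is their product;
* `c2 L`: the infimum of the distortions of all injective maps of `ℝⁿ/L` into complex Hilbert
  spaces;
* `Fz L z`: the function `F_z`; `Weight L z`: `z` is nonnegative, even and summable on `dual L`;
* `IsPhi L z Φ`: `Φ` is the map `φ_z` into `ℓ²(L*)`;
* `Optimal L z`: `z` is a weight, and `φ_z` is injective on the torus with distortion `c2 L`;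
* `MostContracted L z x`: `x` is in `Vor L`, is not `0`, and maximises `‖x‖²/F_z(x)` among such
  points.

The lattice is the orthogonal sum of `ℤ` and of the lattice `L₁` of dimension `1300` generated by
`ℤ¹³⁰⁰` and the vectors `(1/1301)(iʲ)_i`, `j < 90`, whose distortion is so large that the circle
factor has room for a profile whose worst point is inside the interval.
-/

namespace Pool.Agent.Results.MP_507a1e_gt.InteriorMostContracted

open Pool.Agent.FlatTorus

/-- There are a lattice, an optimal weight and a most contracted point in the interior of the
Voronoi cell. -/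
theorem result : ∃ (n : ℕ) (L : Submodule ℤ (E n)) (z : dual L → ℝ) (x : E n),
    n = 1301 ∧ IsLattice L ∧ Optimal L z ∧ MostContracted L z x ∧ x ∈ interior (Vor L) ∧
      x ∉ frontier (Vor L) := by
  obtain ⟨L, z, x, h1, h2, h3, h4⟩ := main
  refine ⟨1301, L, z, x, rfl, h1, h2, h3, h4, ?_⟩
  intro h5
  exact h5.2 h4

end Pool.Agent.Results.MP_507a1e_gt.InteriorMostContracted
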